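import Pool.Agent.Lib.MP_e46711_an.H16.Tools

/-!
# B2: `SupClose` (De Giorgi)
-/

open Set Filter Topology MeasureTheory
open scoped ContDiff

namespace Pool.Agent.Lib.MP_e46711_an.H16

/-- the step function -/
noncomputable def stp (x : ℝ) : ℝ := if 0 < x then 1 else 0

theorem stp_nonneg (x : ℝ) : 0 ≤ stp x := by unfold stp; split_ifs <;> norm_num
theorem stp_le_one (x : ℝ) : stp x ≤ 1 := by unfold stp; split_ifs <;> norm_num
theorem stp_sq (x : ℝ) : stp x ^ 2 = stp x := by unfold stp; split_ifs <;> norm_num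
theorem stp_mono : Monotone stp := by
  intro x y h
  unfold stp
  split_ifs with h1 h2 <;> linarith
theorem measurable_stp : Measurable stp :=
  Measurable.ite measurableSet_Ioi measurable_const measurable_const

theorem memLp_stp {D : ℝ × ℝ → ℝ} {ℓ : ℝ} (hD : AEStronglyMeasurable D (muT ℓ)) :
    MemLp (fun z => stp (D z)) 2 (muT ℓ) := by
  refine MemLp.of_bound (measurable_stp.comp_aemeasurable hD.aemeasurable).aestronglyMeasurable 1 ?_
  filter_upwards with z
  rw [Real.norm_eq_abs, abs_of_nonneg (stp_nonneg _)]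
  exact stp_le_one _

theorem l1_le {f D : ℝ × ℝ → ℝ} {ℓ : ℝ} (hD : AEStronglyMeasurable D (muT ℓ))
    (hf : MemLp f 2 (muT ℓ)) (h0 : ∀ z, ¬ 0 < D z → f z = 0) :
    (∫ z, |f z| ∂muT ℓ) ^ 2 ≤ (∫ z, stp (D z) ∂muT ℓ) * ∫ z, f z ^ 2 ∂muT ℓ := by
  have h1 := cs (memLp_stp hD) hf.abs
  have e1 : ∀ z, stp (D z) * |f z| = |f z| := by
    intro z
    unfold stp
    split_ifs with h
    · rw [one_mul]
    · rw [h0 z h]; simp
  have e2 : ∀ z, |f| z = |f z| := fun z => rfl
  simp only [e2, e1, stp_sq, sq_abs] at h1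
  exact h1

/-- The pointwise bound used in the energy estimate. -/
theorem pt_bound {p lam hz Hb vz Vb om Ω K k D U c Qb Py CF : ℝ} (hp : p ∈ Ioo (0:ℝ) 1)
    (hlam : 0 < lam) (hz0 : 0 < hz) (hzb : hz ≤ Hb) (hv : |vz| ≤ Vb) (hom0 : 0 < om)
    (hom : om ≤ Ω) (hk0 : 0 ≤ k) (hkK : k ≤ K) (hD : 0 < D) (hU : U = D + vz + k)
    (hc : |c| ≤ Qb) (hCF : 0 < CF) :
    lam * (gg p U * D * (hz * om / 2)) + 1 / 2 * (-(lam * (hz * gg p vz)) * D) + c * Py
      ≤ lam * Hb / 2 * ((1 + 2 * (Ω + 1)) + (K + (1 + 2 * (Vb + K)) * (Ω + 1))) * (D ^ 2 + 1)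
        + 1 / (2 * CF) * Py ^ 2 + CF * Qb ^ 2 / 2 := by
  have hHb0 : 0 < Hb := by linarith
  have hVb0 : 0 ≤ Vb := (abs_nonneg _).trans hv
  have hΩ0 : 0 < Ω := by linarith
  have hK0 : 0 ≤ K := by linarith
  set α := 1 + 2 * (Ω + 1) with hα
  set β := K + (1 + 2 * (Vb + K)) * (Ω + 1) with hβ
  have hα0 : 0 < α := by positivity
  have hβ0 : 0 < β := by positivity
  have homabs : |om - 1| ≤ Ω + 1 := by
    rw [abs_le]; constructor <;> linarith
  have hUabs : |U| ≤ D + Vb + K := by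
    rw [hU]
    calc |D + vz + k| ≤ |D + vz| + |k| := abs_add_le _ _
      _ ≤ |D| + |vz| + |k| := by linarith [abs_add_le D vz]
      _ ≤ _ := by
        rw [abs_of_pos hD, abs_of_nonneg hk0]
        linarith
  have hg1 : gg p U - gg p vz ≤ D + K := by
    have := gg_sub_le (p := p) (x := U) (y := vz) hp.1 (by rw [hU]; linarith)
    have e : U - vz = D + k := by rw [hU]; ring
    linarith
  have hg2 : gg p U * (om - 1) ≤ (1 + 2 * (D + Vb + K)) * (Ω + 1) := by
    calc gg p U * (om - 1) ≤ |gg p U * (om - 1)| := le_abs_self _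
      _ = |gg p U| * |om - 1| := abs_mul _ _
      _ ≤ (1 + 2 * (D + Vb + K)) * (Ω + 1) := by
        refine mul_le_mul ((abs_gg_le hp.1 hp.2 _).trans ?_) homabs (abs_nonneg _) ?_
        · linarith
        · linarith
  have hg3 : gg p U * om - gg p vz ≤ α * D + β := by
    have e : gg p U * om - gg p vz = (gg p U - gg p vz) + gg p U * (om - 1) := by ring
    have e2 : α * D + β = (D + K) + (1 + 2 * (D + Vb + K)) * (Ω + 1) := by rw [hα, hβ]; ring
    rw [e, e2]
    exact add_le_add hg1 hg2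
  have hg4 : lam * (gg p U * D * (hz * om / 2)) + 1 / 2 * (-(lam * (hz * gg p vz)) * D)
      ≤ lam * Hb / 2 * (α + β) * (D ^ 2 + 1) := by
    have e1 : lam * (gg p U * D * (hz * om / 2)) + 1 / 2 * (-(lam * (hz * gg p vz)) * D)
        = lam * hz / 2 * D * (gg p U * om - gg p vz) := by ring
    rw [e1]
    have h0 : 0 ≤ lam * hz / 2 * D := by positivity
    calc lam * hz / 2 * D * (gg p U * om - gg p vz)
        ≤ lam * hz / 2 * D * (α * D + β) := mul_le_mul_of_nonneg_left hg3 h0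
      _ ≤ lam * Hb / 2 * D * (α * D + β) := by
        refine mul_le_mul_of_nonneg_right ?_ (by positivity)
        refine mul_le_mul_of_nonneg_right ?_ hD.le
        have := mul_le_mul_of_nonneg_left hzb hlam.le
        linarith
      _ = lam * Hb / 2 * (α * D ^ 2 + β * D) := by ring
      _ ≤ lam * Hb / 2 * ((α + β) * (D ^ 2 + 1)) := by
        refine mul_le_mul_of_nonneg_left ?_ (by positivity)
        have t1 : D ≤ D ^ 2 + 1 := by nlinarith [sq_nonneg (D - 1)]
        have t2 : β * D ≤ β * (D ^ 2 + 1) := mul_le_mul_of_nonneg_left t1 hβ0.le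
        have t3 : α * D ^ 2 ≤ α * (D ^ 2 + 1) := mul_le_mul_of_nonneg_left (by linarith) hα0.le
        linarith
      _ = _ := by ring
  have hg5 : c * Py ≤ 1 / (2 * CF) * Py ^ 2 + CF * Qb ^ 2 / 2 := by
    have t1 : c ^ 2 ≤ Qb ^ 2 := by
      rw [← sq_abs c]
      exact pow_le_pow_left₀ (abs_nonneg _) hc 2
    have t2 : 0 ≤ 1 / (2 * CF) * (Py - CF * c) ^ 2 := by positivity
    have t3 : 1 / (2 * CF) * (Py - CF * c) ^ 2 = 1 / (2 * CF) * Py ^ 2 - c * Py + CF * c ^ 2 / 2 := by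
      field_simp
      ring
    have t4 : CF * c ^ 2 / 2 ≤ CF * Qb ^ 2 / 2 := by
      have := mul_le_mul_of_nonneg_left t1 hCF.le
      linarith
    linarith
  linarith

/-- The energy estimate on the level sets. -/
theorem level (hB : H1TBasic) (hT : H1TTrunc) (hG : GNStatement) (hW : WeakExtend)
    (hF : FormCompare) {p : ℝ} (hp : p ∈ Ioo (0:ℝ) 1) {ℓ : ℝ} (hℓ : 0 < ℓ) {h : ℝ → ℝ}
    (hs : ContDiff ℝ ∞ h) (hper : ∀ s, h (s + ℓ) = h s) (hpos : ∀ s, 0 < h s) {lam : ℝ}
    (hlam : 0 < lam) {v F : ℝ → ℝ} (hv : Sol p lam ℓ h v F) (K : ℝ) (hK : 0 ≤ K) :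
    ∃ C > 0, ∀ δ ∈ Ioc (0:ℝ) 1, ∀ U V W, WSol p lam ℓ h δ U V W → ∀ k ∈ Icc 0 K,
      ∫ z, max (U z - v z.1 - k) 0 ^ 2 ∂muT ℓ ≤ C * (∫ z, stp (U z - v z.1 - k) ∂muT ℓ)
        * ((∫ z, max (U z - v z.1 - k) 0 ^ 2 ∂muT ℓ) + ∫ z, stp (U z - v z.1 - k) ∂muT ℓ) := by
  obtain ⟨CF, hCF, hform⟩ := hF ℓ hℓ h hs hper hpos
  obtain ⟨CG, hGN⟩ := hG ℓ hℓ
  have hhc : Continuous h := hs.continuous
  have hh'c : Continuous (deriv h) := hs.continuous_deriv (by norm_num)
  have hvc : Continuous v := continuous_iff_continuousAt.2 fun s => (hv.du s).continuousAt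
  have hFc : Continuous F := continuous_iff_continuousAt.2 fun s => (hv.dF s).continuousAt
  have hgv : Continuous fun s => gg p (v s) := (continuous_gg hp.1 hp.2).comp hvc
  have hqc : Continuous fun s => F s / h s := hFc.div hhc fun s => (hpos s).ne'
  obtain ⟨Hb, hHb0, hHb⟩ := exists_bound hhc ℓ
  obtain ⟨Vb, hVb0, hVb⟩ := exists_bound hvc ℓ
  obtain ⟨Qb, hQb0, hQb⟩ := exists_bound (hqc.mul hh'c) ℓ
  set Ω := Real.exp (4 * Real.pi * Hb / ℓ) with hΩ
  have hΩ0 : 0 < Ω := Real.exp_pos _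
  set α := 1 + 2 * (Ω + 1) with hα
  set β := K + (1 + 2 * (Vb + K)) * (Ω + 1) with hβ
  have hα0 : 0 < α := by positivity
  have hβ0 : 0 < β := by positivity
  set C1 := lam * Hb / 2 * (α + β) with hC1
  have hC10 : 0 < C1 := by positivity
  set C2 := CF * Qb ^ 2 / 2 with hC2
  have hC20 : 0 < C2 := by positivity
  set C3 := 2 * (C1 + C2) with hC3
  have hC30 : 0 < C3 := by positivity
  refine ⟨|CG| * (2 + CF * C3) + 1, by positivity, ?_⟩
  intro δ hδ U V W hU k hk
  -- the test function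
  set φ : ℝ × ℝ → ℝ := fun z => -(v z.1 + k) with hφ
  have hφd : ∀ z, HasFDerivAt φ (-((F z.1 / h z.1) • ContinuousLinearMap.fst ℝ ℝ ℝ)) z := by
    intro z
    have h1 : HasFDerivAt (fun z : ℝ × ℝ => v z.1) ((F z.1 / h z.1) •
        ContinuousLinearMap.fst ℝ ℝ ℝ) z := (hv.du z.1).comp_hasFDerivAt z hasFDerivAt_fst
    exact (h1.add_const k).neg
  have hdS : ∀ z, dS φ z = -(F z.1 / h z.1) := by
    intro z; rw [dS, (hφd z).fderiv]; simp
  have hdY : ∀ z, dY φ z = 0 := by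
    intro z; rw [dY, (hφd z).fderiv]; simp
  have hvC1 : ContDiff ℝ 1 v := by
    rw [contDiff_one_iff_deriv]
    refine ⟨fun s => (hv.du s).differentiableAt, ?_⟩
    have : deriv v = fun s => F s / h s := funext fun s => (hv.du s).deriv
    rw [this]; exact hqc
  have hφ1 : C1per ℓ φ := by
    refine ⟨((hvC1.comp contDiff_fst).add contDiff_const).neg, fun s y => ?_⟩
    simp only [hφ, hv.per]
  set D : ℝ × ℝ → ℝ := fun z => U z + φ z with hDdef
  have hDe : ∀ z, U z - v z.1 - k = D z := fun z => by simp only [hDdef, hφ]; ring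
  simp only [hDe]
  have hDH : H1T ℓ D (fun z => V z + dS φ z) (fun z => W z + dY φ z) :=
    (hB ℓ hℓ).2.1 U V W φ (dS φ) (dY φ) hU.h1 ((hB ℓ hℓ).1 φ hφ1)
  have hDm : AEStronglyMeasurable D (muT ℓ) := hDH.mU.1
  obtain ⟨hP, -⟩ := hT ℓ hℓ D _ _ hDH
  set P : ℝ × ℝ → ℝ := fun z => max (D z) 0 with hPdef
  set Ps : ℝ × ℝ → ℝ := fun z => if 0 < D z then V z + dS φ z else 0 with hPs
  set Py : ℝ × ℝ → ℝ := fun z => if 0 < D z then W z + dY φ z else 0 with hPy
  set a := ∫ z, stp (D z) ∂muT ℓ with ha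
  set b := ∫ z, P z ^ 2 ∂muT ℓ with hb
  have ha0 : 0 ≤ a := integral_nonneg fun z => stp_nonneg _
  have hb0 : 0 ≤ b := integral_nonneg fun z => sq_nonneg _
  have zP : ∀ z, ¬ 0 < D z → P z = 0 := fun z hz => max_eq_right (not_lt.1 hz)
  have zPs : ∀ z, ¬ 0 < D z → Ps z = 0 := fun z hz => if_neg hz
  have zPy : ∀ z, ¬ 0 < D z → Py z = 0 := fun z hz => if_neg hz
  -- the energy
  set E := Bil ℓ h δ Ps Py Ps Py with hE
  have hf := hform δ hδ Ps Py hP.mV hP.mW
  set sE := ∫ z, Ps z ^ 2 ∂muT ℓ with hsE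
  set yE := ∫ z, Py z ^ 2 ∂muT ℓ with hyE
  have hsE0 : 0 ≤ sE := integral_nonneg fun z => sq_nonneg _
  have hyE0 : 0 ≤ yE := integral_nonneg fun z => sq_nonneg _
  have hyδ : yE ≤ yE / δ ^ 2 := by
    rw [le_div_iff₀ (by have := hδ.1; positivity)]
    have : δ ^ 2 ≤ 1 := pow_le_one₀ hδ.1.le hδ.2
    nlinarith
  have hsyE : sE + yE ≤ CF * E := by linarith [hf.1]
  -- coefficients
  set c1 : ℝ × ℝ → ℝ := fun z => deriv h z.1 / h z.1 * z.2 with hc1
  have hc1c : Continuous c1 :=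
    ((hh'c.comp continuous_fst).div (hhc.comp continuous_fst) fun z => (hpos _).ne').mul
      continuous_snd
  have hG1m : MemLp (G1 h Ps Py) 2 (muT ℓ) := hP.mV.sub (memLp_cmul hP.mW hc1c)
  have hG2m : MemLp (G2 h δ Py) 2 (muT ℓ) := by
    have : G2 h δ Py = fun z => (1 / (δ * h z.1)) * Py z := by
      funext z; rw [G2]; ring
    rw [this]
    refine memLp_cmul hP.mW (continuous_const.div (continuous_const.mul
      (hhc.comp continuous_fst)) fun z => (mul_pos hδ.1 (hpos _)).ne')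
  have hq1 : Continuous fun z : ℝ × ℝ => F z.1 / h z.1 := hqc.comp continuous_fst
  have hh1 : Continuous fun z : ℝ × ℝ => h z.1 / 2 := (hhc.comp continuous_fst).div_const 2
  have iE : Integrable (fun z => (G1 h Ps Py z * G1 h Ps Py z + G2 h δ Py z * G2 h δ Py z)
      * (h z.1 / 2)) (muT ℓ) := by
    have i1 := (int_mul hG1m (memLp_cmul hG1m hh1)).add (int_mul hG2m (memLp_cmul hG2m hh1))
    refine i1.congr (ae_of_all _ fun z => ?_)
    show G1 h Ps Py z * (h z.1 / 2 * G1 h Ps Py z) + G2 h δ Py z * (h z.1 / 2 * G2 h δ Py z) = _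
    ring
  have mFPs : Integrable (fun z : ℝ × ℝ => F z.1 * Ps z) (muT ℓ) :=
    int_one (memLp_cmul hP.mV (hFc.comp continuous_fst))
  have hc2c : Continuous fun z : ℝ × ℝ => F z.1 / h z.1 * deriv h z.1 / 2 * z.2 :=
    (((hqc.comp continuous_fst).mul (hh'c.comp continuous_fst)).div_const 2).mul continuous_snd
  have mPy2 : Integrable (fun z : ℝ × ℝ => F z.1 / h z.1 * deriv h z.1 / 2 * z.2 * Py z)
      (muT ℓ) := int_one (memLp_cmul hP.mW hc2c)
  have iFP2 : Integrable (fun z : ℝ × ℝ => 1 / 2 * (F z.1 * Ps z)) (muT ℓ) := mFPs.const_mul _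
  have iEF : Integrable (fun z => (G1 h Ps Py z * G1 h Ps Py z + G2 h δ Py z * G2 h δ Py z)
      * (h z.1 / 2) + 1 / 2 * (F z.1 * Ps z)) (muT ℓ) := iE.add iFP2
  have hid : Bil ℓ h δ V W Ps Py = E + (1 / 2 * ∫ z, F z.1 * Ps z ∂muT ℓ)
      - ∫ z, F z.1 / h z.1 * deriv h z.1 / 2 * z.2 * Py z ∂muT ℓ := by
    rw [hE, Bil, Bil, ← integral_const_mul, ← integral_add iE iFP2, ← integral_sub iEF mPy2]
    refine integral_congr_ae (ae_of_all _ fun z => ?_)
    have hz := (hpos z.1).ne'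
    by_cases hd : 0 < D z
    · have e1 : Ps z = V z - F z.1 / h z.1 := by
        simp only [hPs, if_pos hd, hdS]; ring
      have e2 : Py z = W z := by simp only [hPy, if_pos hd, hdY, add_zero]
      simp only [G1, G2, e1, e2]
      field_simp
      ring
    · simp only [G1, G2, zPs z hd, zPy z hd]
      ring
  have hwk := hW p hp ℓ hℓ h hs hper hpos δ hδ.1 lam U V W hU P Ps Py hP
  have hF'c : Continuous fun s => -(lam * (h s * gg p (v s))) :=
    (continuous_const.mul (hhc.mul hgv)).neg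
  have hib := ibp hℓ hv.dF hF'c hv.perF hP
  -- integrability of the right-hand side
  have hom : Continuous fun z : ℝ × ℝ => lam * (h z.1 * om ℓ h δ z / 2) := by
    unfold om
    have := hhc.comp (continuous_fst (X := ℝ) (Y := ℝ))
    simp only [Function.comp_def] at this
    fun_prop
  have mgU : MemLp (fun z => gg p (U z)) 2 (muT ℓ) := by
    have mU := hU.h1.mU
    have m1 : MemLp (fun z => 1 + 2 * |U z|) 2 (muT ℓ) :=
      (memLp_const (1:ℝ)).add (mU.abs.const_mul 2)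
    refine m1.mono ((continuous_gg hp.1 hp.2).comp_aestronglyMeasurable mU.1)
      (ae_of_all _ fun z => ?_)
    rw [Real.norm_eq_abs, Real.norm_eq_abs]
    exact (abs_gg_le hp.1 hp.2 _).trans (le_abs_self _)
  have iI1 : Integrable (fun z => lam * (gg p (U z) * P z * (h z.1 * om ℓ h δ z / 2)))
      (muT ℓ) := by
    refine (int_mul mgU (memLp_cmul hP.mU hom)).congr (ae_of_all _ fun z => ?_)
    show gg p (U z) * (lam * (h z.1 * om ℓ h δ z / 2) * P z) = _
    ring
  have iI2 : Integrable (fun z : ℝ × ℝ => 1 / 2 * (-(lam * (h z.1 * gg p (v z.1))) * P z))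
      (muT ℓ) := (int_one (memLp_cmul hP.mU (hF'c.comp continuous_fst))).const_mul _
  have iI12 : Integrable (fun z : ℝ × ℝ => lam * (gg p (U z) * P z * (h z.1 * om ℓ h δ z / 2))
      + 1 / 2 * (-(lam * (h z.1 * gg p (v z.1))) * P z)) (muT ℓ) := iI1.add iI2
  have hER : E = ∫ z, (lam * (gg p (U z) * P z * (h z.1 * om ℓ h δ z / 2))
      + 1 / 2 * (-(lam * (h z.1 * gg p (v z.1))) * P z)
      + F z.1 / h z.1 * deriv h z.1 / 2 * z.2 * Py z) ∂muT ℓ := by
    rw [integral_add iI12 mPy2, integral_add iI1 iI2, integral_const_mul, integral_const_mul]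
    rw [hwk, Inu, hib] at hid
    linarith
  -- the pointwise bound
  have iP2 := int_sq hP.mU
  have iPy2 := int_sq hP.mW
  have istp : Integrable (fun z => stp (D z)) (muT ℓ) := int_one (memLp_stp hDm)
  have iB1 : Integrable (fun z => C1 * (P z ^ 2 + stp (D z))) (muT ℓ) :=
    (iP2.add istp).const_mul _
  have iB2 : Integrable (fun z => 1 / (2 * CF) * Py z ^ 2) (muT ℓ) := iPy2.const_mul _
  have iB3 : Integrable (fun z => C2 * stp (D z)) (muT ℓ) := istp.const_mul _
  have iB12 : Integrable (fun z => C1 * (P z ^ 2 + stp (D z)) + 1 / (2 * CF) * Py z ^ 2)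
      (muT ℓ) := iB1.add iB2
  have hEle : E ≤ C1 * (b + a) + 1 / (2 * CF) * yE + C2 * a := by
    have e0 : C1 * (b + a) + 1 / (2 * CF) * yE + C2 * a
        = ∫ z, (C1 * (P z ^ 2 + stp (D z)) + 1 / (2 * CF) * Py z ^ 2 + C2 * stp (D z)) ∂muT ℓ := by
      rw [integral_add iB12 iB3, integral_add iB1 iB2, integral_const_mul, integral_const_mul,
        integral_const_mul, integral_add iP2 istp]
    rw [e0, hER]
    refine integral_mono_ae (iI12.add mPy2) (iB12.add iB3) ?_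
    filter_upwards [ae_mem ℓ] with z hz
    by_cases hd : 0 < D z
    · have hPz : P z = D z := max_eq_left hd.le
      have hst : stp (D z) = 1 := if_pos hd
      have hzI : z.1 ∈ Icc 0 ℓ := Ioc_subset_Icc_self hz.1
      have b1 := hHb z.1 hzI
      rw [abs_of_pos (hpos _)] at b1
      have hUv : U z = D z + v z.1 + k := by simp only [hDdef, hφ]; ring
      have hom1 : om ℓ h δ z ≤ Ω := by
        rw [om, hΩ]
        refine Real.exp_le_exp.2 ?_
        refine div_le_div_of_nonneg_right ?_ hℓ.le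
        have hpi := Real.pi_pos
        have t1 : δ * h z.1 * z.2 ≤ Hb := by
          have t2 : δ * h z.1 ≤ Hb := by
            calc δ * h z.1 ≤ 1 * h z.1 := mul_le_mul_of_nonneg_right hδ.2 (hpos _).le
              _ ≤ Hb := by linarith
          have t3 : 0 < δ * h z.1 := mul_pos hδ.1 (hpos _)
          have t4 : z.2 ≤ 1 := hz.2.2.le
          have t5 := mul_le_mul_of_nonneg_left t4 t3.le
          linarith
        calc 4 * Real.pi * δ * h z.1 * z.2 = 4 * Real.pi * (δ * h z.1 * z.2) := by ring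
          _ ≤ 4 * Real.pi * Hb := mul_le_mul_of_nonneg_left t1 (by positivity)
      have t3 : |z.2| ≤ 1 := abs_le.2 ⟨by linarith [hz.2.1], hz.2.2.le⟩
      have hcb : |F z.1 / h z.1 * deriv h z.1 / 2 * z.2| ≤ Qb := by
        have t2 : |F z.1 / h z.1 * deriv h z.1| ≤ Qb := hQb z.1 hzI
        rw [abs_mul, abs_div, abs_two]
        have t4 := abs_nonneg (F z.1 / h z.1 * deriv h z.1)
        have t5 : |F z.1 / h z.1 * deriv h z.1| / 2 ≤ Qb := by linarith
        have t6 := mul_le_mul t5 t3 (abs_nonneg _) hQb0.le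
        linarith
      have key := pt_bound (Py := Py z) hp hlam (hpos z.1) b1 (hVb z.1 hzI) (Real.exp_pos _)
        hom1 hk.1 hk.2 hd hUv hcb hCF
      simp only [hPz, hst]
      rw [hC1, hC2, hα, hβ]
      refine key.trans (le_of_eq ?_)
      ring
    · have z1 := zP z hd
      have z2 := zPy z hd
      have z3 : stp (D z) = 0 := if_neg hd
      simp only [z1, z2, z3]
      simp
  have hE3 : E ≤ C3 * (b + a) := by
    have t1 : yE ≤ CF * E := by linarith
    have t2 : 1 / (2 * CF) * yE ≤ E / 2 := by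
      calc 1 / (2 * CF) * yE ≤ 1 / (2 * CF) * (CF * E) :=
            mul_le_mul_of_nonneg_left t1 (by positivity)
        _ = E / 2 := by field_simp
    have t3 : C2 * a ≤ C2 * (b + a) := mul_le_mul_of_nonneg_left (by linarith) hC20.le
    rw [hC3]
    linarith
  -- the Gagliardo-Nirenberg inequality
  have hgn := hGN P Ps Py hP
  have x1 := l1_le hDm hP.mU zP
  have x2 := l1_le hDm hP.mV zPs
  have x3 := l1_le hDm hP.mW zPy
  set X := ∫ z, |P z| ∂muT ℓ with hX
  set Z := ∫ z, |Ps z| ∂muT ℓ with hZ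
  set Y := ∫ z, |Py z| ∂muT ℓ with hY
  have hX0 : 0 ≤ X := integral_nonneg fun z => abs_nonneg _
  have hZ0 : 0 ≤ Z := integral_nonneg fun z => abs_nonneg _
  have hY0 : 0 ≤ Y := integral_nonneg fun z => abs_nonneg _
  have hprod : (X + Y) * (X + Z) ≤ a * ((2 + CF * C3) * (b + a)) := by
    have t1 : (X + Y) * (X + Z) ≤ 2 * X ^ 2 + Y ^ 2 + Z ^ 2 := by
      nlinarith [sq_nonneg (X - Y), sq_nonneg (X - Z), sq_nonneg (Y - Z)]
    have t2 : 2 * X ^ 2 + Y ^ 2 + Z ^ 2 ≤ a * (2 * b + yE + sE) := by nlinarith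
    have t3 : 2 * b + yE + sE ≤ (2 + CF * C3) * (b + a) := by
      have := mul_le_mul_of_nonneg_left hE3 hCF.le
      nlinarith
    exact t1.trans (t2.trans (mul_le_mul_of_nonneg_left t3 ha0))
  have hXY : 0 ≤ (X + Y) * (X + Z) := by positivity
  have hba : 0 ≤ a * (b + a) := by positivity
  calc b ≤ CG * (X + Y) * (X + Z) := hgn
    _ = CG * ((X + Y) * (X + Z)) := by ring
    _ ≤ |CG| * ((X + Y) * (X + Z)) := mul_le_mul_of_nonneg_right (le_abs_self _) hXY
    _ ≤ |CG| * (a * ((2 + CF * C3) * (b + a))) := mul_le_mul_of_nonneg_left hprod (abs_nonneg _)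
    _ ≤ (|CG| * (2 + CF * C3) + 1) * a * (b + a) := by nlinarith

/-- one-sided closeness -/
theorem oneside (hB : H1TBasic) (hT : H1TTrunc) (hG : GNStatement) (hW : WeakExtend)
    (hF : FormCompare) {p : ℝ} (hp : p ∈ Ioo (0:ℝ) 1) {ℓ : ℝ} (hℓ : 0 < ℓ) {h : ℝ → ℝ}
    (hs : ContDiff ℝ ∞ h) (hper : ∀ s, h (s + ℓ) = h s) (hpos : ∀ s, 0 < h s) {lam : ℝ}
    (hlam : 0 < lam) {v F : ℝ → ℝ} (hv : Sol p lam ℓ h v F) (η : ℝ) (hη : 0 < η) :
    ∃ κ > 0, ∀ δ ∈ Ioc (0:ℝ) 1, ∀ U V W, WSol p lam ℓ h δ U V W →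
      ∫ z, (U z - v z.1) ^ 2 ∂muT ℓ ≤ κ → ∀ᵐ z ∂muT ℓ, U z - v z.1 ≤ η := by
  obtain ⟨C, hC, hlev⟩ := level hB hT hG hW hF hp hℓ hs hper hpos hlam hv η hη.le
  have hm : 0 < min (η ^ 2 / (128 * C)) (1 / (2 * C)) := by positivity
  refine ⟨min (η ^ 2 / (128 * C)) (1 / (2 * C)) * (η / 2) ^ 2, by positivity, ?_⟩
  intro δ hδ U V W hU hκ
  have hvc : Continuous v := continuous_iff_continuousAt.2 fun s => (hv.du s).continuousAt
  set d : ℝ × ℝ → ℝ := fun z => U z - v z.1 with hd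
  have hdm : MemLp d 2 (muT ℓ) := hU.h1.mU.sub (memLp_cont (hvc.comp continuous_fst) ℓ)
  have hdk : ∀ k : ℝ, AEStronglyMeasurable (fun z => d z - k) (muT ℓ) := fun k =>
    hdm.1.sub aestronglyMeasurable_const
  have is : ∀ k : ℝ, Integrable (fun z => stp (d z - k)) (muT ℓ) := fun k =>
    int_one (memLp_stp (hdk k))
  have hmx : ∀ k : ℝ, MemLp (fun z => max (d z - k) 0) 2 (muT ℓ) := by
    intro k
    have h1 : MemLp (fun z => d z - k) 2 (muT ℓ) := hdm.sub (memLp_const k)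
    refine h1.mono (h1.1.sup aestronglyMeasurable_const) (ae_of_all _ fun z => ?_)
    rw [Real.norm_eq_abs, Real.norm_eq_abs, abs_of_nonneg (le_max_right _ _)]
    exact max_le (le_abs_self _) (abs_nonneg _)
  have hfin : (fun k => ∫ z, stp (d z - k) ∂muT ℓ) η = 0 := by
    refine deGiorgi (fun k => ∫ z, stp (d z - k) ∂muT ℓ)
      (fun k => ∫ z, max (d z - k) 0 ^ 2 ∂muT ℓ) C η hC hη
      (fun k => integral_nonneg fun z => stp_nonneg _) ?_ ?_ ?_ ?_
    · intro k k' hkk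
      exact integral_mono (is k') (is k) fun z => stp_mono (by linarith)
    · intro k k' hkk
      show (∫ z, stp (d z - k') ∂muT ℓ) * (k' - k) ^ 2 ≤ ∫ z, max (d z - k) 0 ^ 2 ∂muT ℓ
      rw [← integral_mul_const]
      refine integral_mono ((is k').mul_const _) (int_sq (hmx k)) fun z => ?_
      show stp (d z - k') * (k' - k) ^ 2 ≤ max (d z - k) 0 ^ 2
      by_cases hz : 0 < d z - k'
      · rw [stp, if_pos hz, one_mul]
        refine pow_le_pow_left₀ (by linarith) ?_ 2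
        exact (by linarith : k' - k ≤ d z - k).trans (le_max_left _ _)
      · rw [stp, if_neg hz, zero_mul]
        positivity
    · intro k hk
      exact hlev δ hδ U V W hU k hk
    · show ∫ z, stp (d z - η / 2) ∂muT ℓ ≤ _
      have h1 : (∫ z, stp (d z - η / 2) ∂muT ℓ) * (η / 2) ^ 2 ≤ ∫ z, d z ^ 2 ∂muT ℓ := by
        rw [← integral_mul_const]
        refine integral_mono ((is _).mul_const _) (int_sq hdm) fun z => ?_
        show stp (d z - η / 2) * (η / 2) ^ 2 ≤ d z ^ 2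
        by_cases hz : 0 < d z - η / 2
        · rw [stp, if_pos hz, one_mul]
          exact pow_le_pow_left₀ (by linarith) (by linarith) 2
        · rw [stp, if_neg hz, zero_mul]
          positivity
      have h2 := h1.trans hκ
      exact le_of_mul_le_mul_right h2 (by positivity)
  have h0 := (integral_eq_zero_iff_of_nonneg (fun z => stp_nonneg _) (is η)).1 hfin
  filter_upwards [h0] with z hz
  by_contra hlt
  have : stp (d z - η) = 1 := if_pos (by linarith [not_le.1 hlt])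
  have hz' : stp (d z - η) = 0 := hz
  rw [this] at hz'
  exact one_ne_zero hz'

/-- B2. -/
theorem supClose (hB : H1TBasic) (hT : H1TTrunc) (hG : GNStatement) (hW : WeakExtend)
    (hF : FormCompare) : SupClose := by
  intro p hp ℓ hℓ h hs hper hpos lam hlam v F hv η hη
  obtain ⟨κ1, hκ1, h1⟩ := oneside hB hT hG hW hF hp hℓ hs hper hpos hlam hv η hη
  have hv' : Sol p lam ℓ h (fun s => - v s) (fun s => - F s) := by
    refine ⟨fun s => by simp only [hv.per], fun s => by simp only [hv.perF], fun s => ?_,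
      fun s => ?_⟩
    · have := (hv.du s).neg
      rwa [← neg_div] at this
    · have := (hv.dF s).neg
      simp only [gg_neg]
      refine this.congr_deriv ?_
      ring
  obtain ⟨κ2, hκ2, h2⟩ := oneside hB hT hG hW hF hp hℓ hs hper hpos hlam hv' η hη
  refine ⟨min κ1 κ2, lt_min hκ1 hκ2, ?_⟩
  filter_upwards [Ioc_mem_nhdsGT (zero_lt_one (α := ℝ))] with δ hδ U V W hU hκ
  have hU' : WSol p lam ℓ h δ (fun z => -1 * U z) (fun z => -1 * V z) (fun z => -1 * W z) := by
    refine ⟨(hB ℓ hℓ).2.2.1 (-1) U V W hU.h1, fun φ hφ => ?_⟩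
    have := hU.eq φ hφ
    have e1 : Bil ℓ h δ (fun z => -1 * V z) (fun z => -1 * W z) (dS φ) (dY φ)
        = - Bil ℓ h δ V W (dS φ) (dY φ) := by
      rw [Bil, Bil, ← integral_neg]
      congr 1; ext z
      simp only [G1, G2]
      ring
    have e2 : Inu ℓ h δ (fun z => gg p (-1 * U z) * φ z)
        = - Inu ℓ h δ (fun z => gg p (U z) * φ z) := by
      rw [Inu, Inu, ← integral_neg]
      congr 1; ext z
      rw [neg_one_mul, gg_neg]
      ring
    rw [e1, e2, this]
    ring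
  have a1 := h1 δ hδ U V W hU (hκ.trans (min_le_left _ _))
  have a2 := h2 δ hδ _ _ _ hU' (by
    refine le_trans (le_of_eq ?_) (hκ.trans (min_le_right _ _))
    congr 1; ext z
    ring)
  filter_upwards [a1, a2] with z hz1 hz2
  rw [abs_le]
  constructor <;> linarith

end Pool.Agent.Lib.MP_e46711_an.H16
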