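import Pool.Agent.Lib.MP_e46711_an.H82.Basic

/-!
# Tools for `SupClose`: the iteration lemma, `L^2` toolbox on the strip, integration by parts
-/

open Set Filter Topology MeasureTheory
open scoped ContDiff

namespace Pool.Agent.Lib.MP_e46711_an.H16

/-! ### The iteration -/

theorem deGiorgi (a b : ℝ → ℝ) (C η : ℝ) (hC : 0 < C) (hη : 0 < η) (ha : ∀ k, 0 ≤ a k)
    (hanti : Antitone a)
    (h1 : ∀ k k', k ≤ k' → a k' * (k' - k) ^ 2 ≤ b k)
    (h2 : ∀ k ∈ Icc 0 η, b k ≤ C * a k * (b k + a k))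
    (h0 : a (η / 2) ≤ min (η ^ 2 / (128 * C)) (1 / (2 * C))) : a η = 0 := by
  set m := min (η ^ 2 / (128 * C)) (1 / (2 * C)) with hm
  have hm1 : m ≤ η ^ 2 / (128 * C) := min_le_left _ _
  have hm2 : m ≤ 1 / (2 * C) := min_le_right _ _
  have hm0 : 0 ≤ m := (ha _).trans h0
  have key : ∀ j : ℕ, a (η * (1 - (1 / 2) ^ (j + 1))) ≤ m * (1 / 4) ^ j := by
    intro j
    induction j with
    | zero => simpa [show η * (1 - 2⁻¹) = η / 2 by ring] using h0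
    | succ j ih =>
      set k := η * (1 - (1 / 2 : ℝ) ^ (j + 1)) with hk
      set k' := η * (1 - (1 / 2 : ℝ) ^ (j + 1 + 1)) with hk'
      have hp : (0:ℝ) < (1 / 2) ^ (j + 1) := by positivity
      have hp1 : ((1:ℝ) / 2) ^ (j + 1) ≤ 1 := pow_le_one₀ (by norm_num) (by norm_num)
      have hkk : k' - k = η * (1 / 2) ^ (j + 2) := by
        rw [hk, hk', show (1 / 2 : ℝ) ^ (j + 1) = 2 * (1 / 2) ^ (j + 2) by
          rw [pow_succ (1 / 2 : ℝ) (j + 1)]; ring]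
        ring
      have hk0 : k ∈ Icc 0 η := by
        constructor
        · exact mul_nonneg hη.le (by linarith)
        · rw [hk]; nlinarith
      have hC1 : C * a k ≤ 1 / 2 := by
        have h3 : a k ≤ m := ih.trans (mul_le_of_le_one_right hm0
          (pow_le_one₀ (by norm_num) (by norm_num)))
        calc C * a k ≤ C * (1 / (2 * C)) := mul_le_mul_of_nonneg_left (h3.trans hm2) hC.le
          _ = 1 / 2 := by field_simp
      have hb0 : 0 ≤ b k := by simpa using h1 k k le_rfl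
      have hb : b k ≤ 2 * C * a k ^ 2 := by
        have h4 := h2 k hk0
        have h5 : C * a k * b k ≤ 1 / 2 * b k := mul_le_mul_of_nonneg_right hC1 hb0
        nlinarith
      have h6 := h1 k k' (by have : 0 ≤ k' - k := by rw [hkk]; positivity
                             linarith)
      rw [hkk] at h6
      have h7 : a k ^ 2 ≤ (m * (1 / 4) ^ j) ^ 2 := pow_le_pow_left₀ (ha k) ih 2
      -- a k' * η² (1/4)^(j+2) ≤ 2 C m² (1/4)^(2j)
      have h8 : a k' * (η ^ 2 * (1 / 4) ^ (j + 2)) ≤ 2 * C * (m ^ 2 * ((1 / 4) ^ j) ^ 2) := by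
        have e1 : (η * (1 / 2 : ℝ) ^ (j + 2)) ^ 2 = η ^ 2 * (1 / 4) ^ (j + 2) := by
          rw [mul_pow, ← pow_mul, mul_comm (j + 2) 2, pow_mul]; norm_num
        rw [← e1]
        calc a k' * (η * (1 / 2) ^ (j + 2)) ^ 2 ≤ 2 * C * a k ^ 2 := h6.trans hb
          _ ≤ 2 * C * (m * (1 / 4) ^ j) ^ 2 := mul_le_mul_of_nonneg_left h7 (by positivity)
          _ = _ := by ring
      have h9 : (0:ℝ) < (1 / 4) ^ j := by positivity
      have h10 : 2 * C * (m ^ 2 * ((1 / 4) ^ j) ^ 2)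
          ≤ m * (1 / 4) ^ (j + 1) * (η ^ 2 * (1 / 4) ^ (j + 2)) := by
        have h11 : 128 * C * m ≤ η ^ 2 := by
          calc 128 * C * m ≤ 128 * C * (η ^ 2 / (128 * C)) :=
                mul_le_mul_of_nonneg_left hm1 (by positivity)
            _ = η ^ 2 := by field_simp
        have h12 : m * (1 / 4) ^ (j + 1) * (η ^ 2 * (1 / 4) ^ (j + 2))
            = (η ^ 2 / 64) * m * ((1 / 4) ^ j) ^ 2 := by
          rw [pow_succ, pow_add]; ring
        rw [h12]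
        have h13 : 0 ≤ m * ((1 / 4 : ℝ) ^ j) ^ 2 := by positivity
        nlinarith [mul_le_mul_of_nonneg_right h11 h13]
      have h14 : (0:ℝ) < η ^ 2 * (1 / 4) ^ (j + 2) := by positivity
      exact le_of_mul_le_mul_right (h8.trans h10) h14
  have hle : ∀ j : ℕ, a η ≤ m * (1 / 4) ^ j := by
    intro j
    refine (hanti ?_).trans (key j)
    have hp : (0:ℝ) < (1 / 2) ^ (j + 1) := by positivity
    nlinarith
  have hlim : Tendsto (fun j : ℕ => m * (1 / 4 : ℝ) ^ j) atTop (𝓝 (m * 0)) :=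
    (tendsto_pow_atTop_nhds_zero_of_lt_one (by norm_num) (by norm_num)).const_mul m
  rw [mul_zero] at hlim
  exact le_antisymm (ge_of_tendsto' hlim hle) (ha _)

/-! ### The measure on the strip -/

instance instFin (ℓ : ℝ) : IsFiniteMeasure (muT ℓ) := by unfold muT; infer_instance

theorem muT_eq (ℓ : ℝ) : muT ℓ = (volume : Measure (ℝ × ℝ)).restrict (Ioc 0 ℓ ×ˢ Ioo (-1) 1) := by
  rw [muT, Measure.prod_restrict]
  rfl

theorem ae_mem (ℓ : ℝ) : ∀ᵐ z ∂muT ℓ, z.1 ∈ Ioc 0 ℓ ∧ z.2 ∈ Ioo (-1:ℝ) 1 := by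
  rw [muT_eq]
  filter_upwards [ae_restrict_mem (measurableSet_Ioc.prod measurableSet_Ioo)] with z hz
  exact hz

theorem exists_bound {f : ℝ → ℝ} (hf : Continuous f) (ℓ : ℝ) :
    ∃ B > 0, ∀ s ∈ Icc 0 ℓ, |f s| ≤ B := by
  obtain ⟨B, hB⟩ := isCompact_Icc.exists_bound_of_continuousOn (s := Icc 0 ℓ) hf.continuousOn
  exact ⟨max B 1, by positivity, fun s hs => (hB s hs).trans (le_max_left _ _)⟩

theorem exists_bound2 {f : ℝ × ℝ → ℝ} (hf : Continuous f) (ℓ : ℝ) :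
    ∃ B > 0, ∀ᵐ z ∂muT ℓ, |f z| ≤ B := by
  obtain ⟨B, hB⟩ := (isCompact_Icc.prod isCompact_Icc).exists_bound_of_continuousOn
    (s := Icc (0:ℝ) ℓ ×ˢ Icc (-1:ℝ) 1) hf.continuousOn
  refine ⟨max B 1, by positivity, ?_⟩
  filter_upwards [ae_mem ℓ] with z hz
  exact (hB z ⟨Ioc_subset_Icc_self hz.1, Ioo_subset_Icc_self hz.2⟩).trans (le_max_left _ _)

theorem memLp_cont {f : ℝ × ℝ → ℝ} (hf : Continuous f) (ℓ : ℝ) : MemLp f 2 (muT ℓ) := by
  obtain ⟨B, -, hB⟩ := exists_bound2 hf ℓ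
  exact MemLp.of_bound hf.aestronglyMeasurable B hB

theorem memLp_bdd {f c : ℝ × ℝ → ℝ} {ℓ : ℝ} (hf : MemLp f 2 (muT ℓ))
    (hc : AEStronglyMeasurable c (muT ℓ)) {B : ℝ} (hB : ∀ᵐ z ∂muT ℓ, |c z| ≤ B) :
    MemLp (fun z => c z * f z) 2 (muT ℓ) := by
  refine MemLp.of_le_mul (c := B) hf (hc.mul hf.1) ?_
  filter_upwards [hB] with z hz
  rw [norm_mul]
  exact mul_le_mul_of_nonneg_right hz (norm_nonneg _)

theorem memLp_cmul {f c : ℝ × ℝ → ℝ} {ℓ : ℝ} (hf : MemLp f 2 (muT ℓ)) (hc : Continuous c) :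
    MemLp (fun z => c z * f z) 2 (muT ℓ) := by
  obtain ⟨B, -, hB⟩ := exists_bound2 hc ℓ
  exact memLp_bdd hf hc.aestronglyMeasurable hB

theorem int_mul {f g : ℝ × ℝ → ℝ} {ℓ : ℝ} (hf : MemLp f 2 (muT ℓ)) (hg : MemLp g 2 (muT ℓ)) :
    Integrable (fun z => f z * g z) (muT ℓ) := hf.integrable_mul hg

theorem int_sq {f : ℝ × ℝ → ℝ} {ℓ : ℝ} (hf : MemLp f 2 (muT ℓ)) :
    Integrable (fun z => f z ^ 2) (muT ℓ) := hf.integrable_sq

theorem int_one {f : ℝ × ℝ → ℝ} {ℓ : ℝ} (hf : MemLp f 2 (muT ℓ)) :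
    Integrable f (muT ℓ) := hf.integrable (by norm_num)

/-- Cauchy-Schwarz. -/
theorem cs {f g : ℝ × ℝ → ℝ} {ℓ : ℝ} (hf : MemLp f 2 (muT ℓ)) (hg : MemLp g 2 (muT ℓ)) :
    (∫ z, f z * g z ∂muT ℓ) ^ 2 ≤ (∫ z, f z ^ 2 ∂muT ℓ) * ∫ z, g z ^ 2 ∂muT ℓ := by
  have h : ∀ t : ℝ, 0 ≤ (∫ z, g z ^ 2 ∂muT ℓ) * (t * t) + (2 * ∫ z, f z * g z ∂muT ℓ) * t
      + ∫ z, f z ^ 2 ∂muT ℓ := by
    intro t
    have h1 : 0 ≤ ∫ z, (f z + t * g z) ^ 2 ∂muT ℓ := integral_nonneg fun z => sq_nonneg _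
    have h2 : ∫ z, (f z + t * g z) ^ 2 ∂muT ℓ = ∫ z, (f z ^ 2 + (2 * t) * (f z * g z)
        + t ^ 2 * g z ^ 2) ∂muT ℓ := by
      congr 1; ext z; ring
    have i1 : Integrable (fun z => f z ^ 2 + (2 * t) * (f z * g z)) (muT ℓ) :=
      (int_sq hf).add ((int_mul hf hg).const_mul _)
    rw [h2, integral_add i1 ((int_sq hg).const_mul _),
      integral_add (int_sq hf) ((int_mul hf hg).const_mul _),
      integral_const_mul, integral_const_mul] at h1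
    linarith
  have h3 := discrim_le_zero h
  rw [discrim] at h3
  nlinarith

/-- Integrals against a fixed `L^2` function pass to the limit. -/
theorem tendsto_int {f : ℕ → ℝ × ℝ → ℝ} {f0 g : ℝ × ℝ → ℝ} {ℓ : ℝ}
    (hf : ∀ n, MemLp (f n) 2 (muT ℓ)) (hf0 : MemLp f0 2 (muT ℓ)) (hg : MemLp g 2 (muT ℓ))
    (hlim : Tendsto (fun n => ∫ z, (f n z - f0 z) ^ 2 ∂muT ℓ) atTop (𝓝 0)) :
    Tendsto (fun n => ∫ z, g z * f n z ∂muT ℓ) atTop (𝓝 (∫ z, g z * f0 z ∂muT ℓ)) := by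
  rw [tendsto_iff_norm_sub_tendsto_zero]
  have h1 : ∀ n, ‖∫ z, g z * f n z ∂muT ℓ - ∫ z, g z * f0 z ∂muT ℓ‖
      ≤ √(∫ z, g z ^ 2 ∂muT ℓ) * √(∫ z, (f n z - f0 z) ^ 2 ∂muT ℓ) := by
    intro n
    have hd : MemLp (fun z => f n z - f0 z) 2 (muT ℓ) := (hf n).sub hf0
    rw [← integral_sub (int_mul hg (hf n)) (int_mul hg hf0), Real.norm_eq_abs]
    have h2 : ∫ z, (g z * f n z - g z * f0 z) ∂muT ℓ = ∫ z, g z * (f n z - f0 z) ∂muT ℓ := by
      congr 1; ext z; ring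
    rw [h2, ← Real.sqrt_mul (integral_nonneg fun z => sq_nonneg _)]
    exact Real.abs_le_sqrt (cs hg hd)
  refine squeeze_zero (fun n => norm_nonneg _) h1 ?_
  have h3 : Tendsto (fun n => √(∫ z, g z ^ 2 ∂muT ℓ) * √(∫ z, (f n z - f0 z) ^ 2 ∂muT ℓ)) atTop
      (𝓝 (√(∫ z, g z ^ 2 ∂muT ℓ) * √0)) :=
    ((Real.continuous_sqrt.tendsto 0).comp hlim).const_mul _
  simpa using h3

theorem contC1 {ℓ : ℝ} {φ : ℝ × ℝ → ℝ} (hφ : C1per ℓ φ) :
    Continuous φ ∧ Continuous (dS φ) ∧ Continuous (dY φ) := by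
  have h1 : Continuous (fderiv ℝ φ) := hφ.1.continuous_fderiv one_ne_zero
  exact ⟨hφ.1.continuous, h1.clm_apply continuous_const, h1.clm_apply continuous_const⟩

/-- integration by parts in `s` for `C^1` functions -/
theorem ibp_smooth {ℓ : ℝ} (hℓ : 0 < ℓ) {F F' : ℝ → ℝ} (hF : ∀ s, HasDerivAt F (F' s) s)
    (hF' : Continuous F') (hper : ∀ s, F (s + ℓ) = F s) {φ : ℝ × ℝ → ℝ} (hφ : C1per ℓ φ) :
    ∫ z, F z.1 * dS φ z ∂muT ℓ = - ∫ z, F' z.1 * φ z ∂muT ℓ := by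
  obtain ⟨c0, c1, -⟩ := contC1 hφ
  have hFc : Continuous F := continuous_iff_continuousAt.2 fun s => (hF s).continuousAt
  have i1 : Integrable (fun z : ℝ × ℝ => F z.1 * dS φ z) (muT ℓ) :=
    int_mul (memLp_cont (hFc.comp continuous_fst) ℓ) (memLp_cont c1 ℓ)
  have i2 : Integrable (fun z : ℝ × ℝ => F' z.1 * φ z) (muT ℓ) :=
    int_mul (memLp_cont (hF'.comp continuous_fst) ℓ) (memLp_cont c0 ℓ)
  have hsum : ∫ z, (F z.1 * dS φ z + F' z.1 * φ z) ∂muT ℓ = 0 := by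
    have i3 : Integrable (fun z : ℝ × ℝ => F z.1 * dS φ z + F' z.1 * φ z) (muT ℓ) := i1.add i2
    unfold muT at i3 ⊢
    rw [integral_prod_symm _ i3]
    have hz : ∀ y : ℝ, ∫ s in Ioc 0 ℓ, (F s * dS φ (s, y) + F' s * φ (s, y)) = 0 := by
      intro y
      rw [← intervalIntegral.integral_of_le hℓ.le]
      have hd : ∀ s : ℝ, HasDerivAt (fun s => F s * φ (s, y))
          (F' s * φ (s, y) + F s * dS φ (s, y)) s := by
        intro s
        have hg : HasDerivAt (fun s : ℝ => φ (s, y)) (dS φ (s, y)) s := by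
          have h1 : HasFDerivAt φ (fderiv ℝ φ (s, y)) (s, y) :=
            (hφ.1.differentiable (by norm_num) _).hasFDerivAt
          have h2 : HasDerivAt (fun s : ℝ => ((s, y) : ℝ × ℝ)) (1, 0) s :=
            (hasDerivAt_id s).prodMk (hasDerivAt_const s y)
          exact h1.comp_hasDerivAt s h2
        exact (hF s).mul hg
      have hcont : Continuous fun s => F' s * φ (s, y) + F s * dS φ (s, y) := by
        have e : Continuous fun s : ℝ => ((s, y) : ℝ × ℝ) := by fun_prop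
        exact (hF'.mul (c0.comp e)).add (hFc.mul (c1.comp e))
      have := intervalIntegral.integral_eq_sub_of_hasDerivAt (fun s _ => hd s)
        (hcont.intervalIntegrable 0 ℓ)
      have h0 : F ℓ * φ (ℓ, y) = F 0 * φ (0, y) := by
        have a1 := hper 0
        have a2 := hφ.2 0 y
        rw [zero_add] at a1 a2
        rw [a1, a2]
      rw [h0, sub_self] at this
      have e2 : ∫ s in (0:ℝ)..ℓ, (F s * dS φ (s, y) + F' s * φ (s, y))
          = ∫ s in (0:ℝ)..ℓ, (F' s * φ (s, y) + F s * dS φ (s, y)) := by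
        congr 1; ext s; ring
      rw [e2, this]
    simp only [hz, integral_zero]
  rw [integral_add i1 i2] at hsum
  linarith

/-- integration by parts in `s` -/
theorem ibp {ℓ : ℝ} (hℓ : 0 < ℓ) {F F' : ℝ → ℝ} (hF : ∀ s, HasDerivAt F (F' s) s)
    (hF' : Continuous F') (hper : ∀ s, F (s + ℓ) = F s) {U V W : ℝ × ℝ → ℝ} (hU : H1T ℓ U V W) :
    ∫ z, F z.1 * V z ∂muT ℓ = - ∫ z, F' z.1 * U z ∂muT ℓ := by
  obtain ⟨φ, hφ, hlim⟩ := hU.approx
  have hFc : Continuous F := continuous_iff_continuousAt.2 fun s => (hF s).continuousAt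
  have mφ : ∀ n, MemLp (φ n) 2 (muT ℓ) := fun n => memLp_cont (contC1 (hφ n)).1 ℓ
  have mS : ∀ n, MemLp (dS (φ n)) 2 (muT ℓ) := fun n => memLp_cont (contC1 (hφ n)).2.1 ℓ
  have mY : ∀ n, MemLp (dY (φ n)) 2 (muT ℓ) := fun n => memLp_cont (contC1 (hφ n)).2.2 ℓ
  have iall : ∀ n, Integrable (fun z => (φ n z - U z) ^ 2 + (dS (φ n) z - V z) ^ 2
      + (dY (φ n) z - W z) ^ 2) (muT ℓ) := fun n =>
    ((int_sq ((mφ n).sub hU.mU)).add (int_sq ((mS n).sub hU.mV))).add (int_sq ((mY n).sub hU.mW))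
  have l1 : Tendsto (fun n => ∫ z, (φ n z - U z) ^ 2 ∂muT ℓ) atTop (𝓝 0) := by
    refine squeeze_zero (fun n => integral_nonneg fun z => sq_nonneg _) (fun n => ?_) hlim
    refine integral_mono (int_sq ((mφ n).sub hU.mU)) (iall n) fun z => ?_
    show (φ n z - U z) ^ 2 ≤ _
    nlinarith [sq_nonneg (dS (φ n) z - V z), sq_nonneg (dY (φ n) z - W z)]
  have l2 : Tendsto (fun n => ∫ z, (dS (φ n) z - V z) ^ 2 ∂muT ℓ) atTop (𝓝 0) := by
    refine squeeze_zero (fun n => integral_nonneg fun z => sq_nonneg _) (fun n => ?_) hlim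
    refine integral_mono (int_sq ((mS n).sub hU.mV)) (iall n) fun z => ?_
    show (dS (φ n) z - V z) ^ 2 ≤ _
    nlinarith [sq_nonneg (φ n z - U z), sq_nonneg (dY (φ n) z - W z)]
  have t1 := tendsto_int mS hU.mV (memLp_cont (hFc.comp continuous_fst) ℓ) l2
  have t2 := tendsto_int mφ hU.mU (memLp_cont (hF'.comp continuous_fst) ℓ) l1
  have e : ∀ n, ∫ z, (F ∘ Prod.fst) z * dS (φ n) z ∂muT ℓ
      = - ∫ z, (F' ∘ Prod.fst) z * φ n z ∂muT ℓ := fun n => ibp_smooth hℓ hF hF' hper (hφ n)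
  simp only [e] at t1
  exact tendsto_nhds_unique t1 t2.neg

end Pool.Agent.Lib.MP_e46711_an.H16
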